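import Pool.Agent.Q34.GB
import Mathlib.Tactic.IntervalCases

set_option autoImplicit false

namespace Pool.Agent.Results.MP_17cdb9_nt.FailsAtFortyOne

open Pool.Agent.Q34

/-- `S(p) = ∑_{k<p} (-1)^k C(-1/4,k)^2` -/
def S (p : ℕ) : ℚ := hs (-1/4) (-1/4) (-1) p

/-- The assertion of Q1 for the odd prime `p` (`(-1)^e` for an integer `e` is written
`Int.negOnePow e`). -/
def Posed (p : ℕ) : Prop :=
  (∀ x y : ℤ, (p : ℤ) = x ^ 2 + 2 * y ^ 2 → p % 8 = 1 →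
    Cong p 2 (S p) (Int.negOnePow ((x + 1) / 2) * (2 * x - p / (2 * x)))) ∧
  (∀ x y : ℤ, (p : ℤ) = x ^ 2 + 2 * y ^ 2 → p % 8 = 3 →
    Cong p 2 (S p) (Int.negOnePow ((y - 1) / 2) * (4 * y - p / (2 * y)))) ∧
  (p % 8 = 5 ∨ p % 8 = 7 → Cong p 1 (S p) 0)

/-- Q1 is false: the case `p ≡ 1 (mod 8)` fails for `p = 41 = 3^2 + 2 * 4^2`. -/
theorem result : ¬ ∀ p : ℕ, p.Prime → p ≠ 2 → Posed p := by
  intro h
  have h7 := (h 41 (by norm_num) (by norm_num)).1 3 4 (by norm_num) (by norm_num)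
  refine not_cong (by norm_num) ?_ h7
  unfold S
  rw [← (st_spec _ _ _ _).2]
  rw [show Int.negOnePow ((3 + 1) / 2) = 1 by decide]
  decide +kernel

end Pool.Agent.Results.MP_17cdb9_nt.FailsAtFortyOne
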